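import Pool.Agent.L5helper6.SL.Fld
import Pool.Agent.Y682.Rst
import Pool.Agent.Y698.Cp

/-!
# The number of locally trivial cocycles of order two on an elliptic curve over `ℚ`
-/

set_option autoImplicit false
set_option linter.all false

attribute [-instance] DivisionRing.toRatAlgebra

open scoped Classical

namespace Pool.Agent.L5helper6.SL

open NumberField IsDedekindDomain WithZero WeierstrassCurve WeierstrassCurve.Affine
open Pool.Agent.TH344.SH
open Pool.Agent.TH841.NF
open Pool.Agent.TH841.SH.D (Pt act Gal Coch IsCoc IsCob LocTriv cob)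
open Pool.Agent.Y682

lemma exists_e (F : Type) [Field F] [NumberField F] [Algebra ℚ F] :
    Nonempty (AlgebraicClosure F ≃+* Qb) := by
  have h0 : Algebra.IsAlgebraic ℚ F := by
    have h1 := NumberField.isAlgebraic F
    convert h1
    exact Subsingleton.elim _ _
  have i3 : Algebra.IsAlgebraic ℚ (AlgebraicClosure F) := Algebra.IsAlgebraic.trans ℚ F _
  have i4 : IsAlgClosure ℚ (AlgebraicClosure F) := ⟨inferInstance, i3⟩
  exact ⟨(IsAlgClosure.equiv ℚ (AlgebraicClosure F) Qb).toRingEquiv⟩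

section

variable {F : Type} [Field F] [NumberField F] [Algebra ℚ F] {E : WeierstrassCurve ℚ}
  {W : WeierstrassCurve F} (hW : Sc (algebraMap ℚ F) 1 E W) (e : AlgebraicClosure F ≃+* Qb)

/-- the signs of a point -/
noncomputable def code (a b : F) (P : Pt E Qb) : Bool × Bool :=
  (decide (sg (algebraMap F (AlgebraicClosure F) a)
      (tm (sc_any' hW (e.symm : Qb →+* AlgebraicClosure F)) P) = 1),
    decide (sg (algebraMap F (AlgebraicClosure F) b)
      (tm (sc_any' hW (e.symm : Qb →+* AlgebraicClosure F)) P) = 1))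


/-- the signs determine a 2-torsion point -/
lemma code_inj {a b c : F} (hR : IsR W.toAffine a b c) {P P' : Pt E Qb} (hP : P + P = 0)
    (hP' : P' + P' = 0) (h : code hW e a b P = code hW e a b P') : P = P' := by
  have hRΩ := isR_base hR (AlgebraicClosure F)
  set S := sc_any' hW (e.symm : Qb →+* AlgebraicClosure F) with hS
  apply tm_inj S
  have h2 : ∀ Q : Pt E Qb, Q + Q = 0 → (tm S Q : Pool.Agent.W309.TD.Pt W (AlgebraicClosure F)) +
      (tm S Q : Pool.Agent.W309.TD.Pt W (AlgebraicClosure F)) = 0 := by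
    intro Q hQ
    have h3 : tm S (Q + Q) = tm S Q + tm S Q := map_add _ _ _
    rw [hQ, map_zero] at h3
    exact h3.symm
  have hne : (1 : AlgebraicClosure F) ≠ -1 := by
    intro h'
    exact hRΩ.two (by linear_combination h')
  have key : ∀ (x : AlgebraicClosure F) (Q Q' : Pool.Agent.W309.TD.Pt W (AlgebraicClosure F)),
      decide (sg x Q = 1) = decide (sg x Q' = 1) → sg x Q = sg x Q' := by
    intro x Q Q' hd
    rw [decide_eq_decide] at hd
    rcases sg_sq x Q with h3 | h3 <;> rcases sg_sq x Q' with h4 | h4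
    · rw [h3, h4]
    · exact absurd (hd.1 h3) (by rw [h4]; exact hne.symm)
    · exact absurd (hd.2 h4) (by rw [h3]; exact hne.symm)
    · rw [h3, h4]
  have h5 := Prod.ext_iff.1 h
  exact tor_ext hRΩ (h2 P hP) (h2 P' hP') (key _ _ _ h5.1) (key _ _ _ h5.2)

/-- two cocycles with the same square roots over `F` and the same values at the representatives -/
lemma eq_of_data {a b c : F} (hR : IsR W.toAffine a b c) {f f' : Coch E} (hf : IsCoc E f)
    (hf' : IsCoc E f') (hf2 : ∀ σ, f σ + f σ = 0) (hf2' : ∀ σ, f' σ + f' σ = 0)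
    {ta tb : AlgebraicClosure F} (hta : ta ≠ 0) (htb : tb ≠ 0)
    (ha : ∀ σ : Gal F, σ ta = sg (algebraMap F (AlgebraicClosure F) a) (rs hW e f σ) * ta)
    (hb : ∀ σ : Gal F, σ tb = sg (algebraMap F (AlgebraicClosure F) b) (rs hW e f σ) * tb)
    (ha' : ∀ σ : Gal F, σ ta = sg (algebraMap F (AlgebraicClosure F) a) (rs hW e f' σ) * ta)
    (hb' : ∀ σ : Gal F, σ tb = sg (algebraMap F (AlgebraicClosure F) b) (rs hW e f' σ) * tb)
    (hc : ∀ q : Gal ℚ ⧸ HF e, code hW e a b (f (sec (HF e) q)) =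
      code hW e a b (f' (sec (HF e) q))) : f = f' := by
  have hRΩ := isR_base hR (AlgebraicClosure F)
  have h2 : ∀ (g : Coch E), (∀ σ, g σ + g σ = 0) → ∀ σ : Gal F,
      (rs hW e g σ : Pool.Agent.W309.TD.Pt W (AlgebraicClosure F)) +
      (rs hW e g σ : Pool.Agent.W309.TD.Pt W (AlgebraicClosure F)) = 0 := by
    intro g hg σ
    have h3 : tm (sc_any' hW (e.symm : Qb →+* AlgebraicClosure F)) (g (cQ e σ) + g (cQ e σ)) =
      tm (sc_any' hW (e.symm : Qb →+* AlgebraicClosure F)) (g (cQ e σ)) +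
        tm (sc_any' hW (e.symm : Qb →+* AlgebraicClosure F)) (g (cQ e σ)) := map_add _ _ _
    rw [hg, map_zero] at h3
    exact h3.symm
  have hrs : ∀ σ : Gal F, rs hW e f σ = rs hW e f' σ := by
    intro σ
    refine tor_ext hRΩ (h2 f hf2 σ) (h2 f' hf2' σ) ?_ ?_
    · have h3 := (ha σ).symm.trans (ha' σ)
      exact mul_right_cancel₀ hta h3
    · have h3 := (hb σ).symm.trans (hb' σ)
      exact mul_right_cancel₀ htb h3
  have hH : ∀ g : Gal ℚ, g ∈ HF e → f g = f' g := by
    intro g hg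
    have h3 := hrs (cF e g)
    unfold rs at h3
    rw [cQ_cF e hg] at h3
    exact tm_inj _ h3
  funext g
  set q : Gal ℚ ⧸ HF e := (g : Gal ℚ ⧸ HF e) with hq
  have hm : (sec (HF e) q)⁻¹ * g ∈ HF e := by
    rw [← QuotientGroup.eq, sec_spec]
  have h4 : g = sec (HF e) q * ((sec (HF e) q)⁻¹ * g) := by group
  rw [h4, hf.2, hf'.2, hH _ hm]
  congr 1
  exact code_inj hW e hR (hf2 _) (hf2' _) (hc q)

end

/-- the number of locally trivial cocycles of order two -/
theorem count (F : Type) [Field F] [NumberField F] [Algebra ℚ F] : ∃ A : ℕ,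
    ∀ S : Set (HeightOneSpectrum (𝓞 F)), S.Finite →
    ∀ (E : WeierstrassCurve ℚ) (W : WeierstrassCurve F), Sc (algebraMap ℚ F) 1 E W →
    ∀ a b c : F, IsR W.toAffine a b c →
    (∀ w : HeightOneSpectrum (𝓞 F), w ∉ S → w.valuation F (a - b) = 1 ∧
        w.valuation F (a - c) = 1 ∧ w.valuation F (b - c) = 1) →
    ∀ (N : ℕ) (f : Fin N → Coch E), Function.Injective f →
      (∀ i, Pool.Agent.TH841.NF.D.IsShaCoc E (f i)) → (∀ i σ, f i σ + f i σ = 0) →
      N ≤ (A * 2 ^ S.ncard) ^ 2 * 4 ^ Module.finrank ℚ F := by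
  obtain ⟨e⟩ := exists_e F
  obtain ⟨A, hA⟩ := sign_classes F
  refine ⟨A, fun S hS E W hW a b c hR hSv N f hinj hf hf2 => ?_⟩
  obtain ⟨T, hTc, hT0, hT⟩ := hA S hS
  have hcoc : ∀ i, IsCoc W (rs hW e (f i)) := fun i => rs_coc hW e (hf i).1
  have hloc : ∀ i (w : HeightOneSpectrum (𝓞 F)), LocTriv W (w.adicCompletion F) (rs hW e (f i)) :=
    fun i w => rs_loc hW e (Pool.Agent.Y698.jx ℚ w) ((hf i).2.1 _)
  have h2 : ∀ i, ∀ σ : Gal F,
      (rs hW e (f i) σ : Pool.Agent.W309.TD.Pt W (AlgebraicClosure F)) +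
      (rs hW e (f i) σ : Pool.Agent.W309.TD.Pt W (AlgebraicClosure F)) = 0 := by
    intro i σ
    have h3 : tm (sc_any' hW (e.symm : Qb →+* AlgebraicClosure F))
        (f i (cQ e σ) + f i (cQ e σ)) =
      tm (sc_any' hW (e.symm : Qb →+* AlgebraicClosure F)) (f i (cQ e σ)) +
        tm (sc_any' hW (e.symm : Qb →+* AlgebraicClosure F)) (f i (cQ e σ)) := map_add _ _ _
    rw [hf2, map_zero] at h3
    exact h3.symm
  have hva : ∀ w : HeightOneSpectrum (𝓞 F), w ∉ S → w.valuation F (a - b) = 1 ∧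
      w.valuation F (a - c) = 1 := fun w hw => ⟨(hSv w hw).1, (hSv w hw).2.1⟩
  have hvb : ∀ w : HeightOneSpectrum (𝓞 F), w ∉ S → w.valuation F (b - a) = 1 ∧
      w.valuation F (b - c) = 1 := fun w hw =>
    ⟨by rw [Valuation.map_sub_swap]; exact (hSv w hw).1, (hSv w hw).2.2⟩
  choose ta hta1 hta2 using fun i => hT W a b c hR hva (rs hW e (f i)) (hcoc i) (hloc i) (h2 i)
  choose tb htb1 htb2 using fun i => hT W b a c hR.swap hvb (rs hW e (f i)) (hcoc i) (hloc i) (h2 i)
  let Φ : Fin N → (T × T) × ((Gal ℚ ⧸ HF e) → Bool × Bool) := fun i =>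
    ((⟨ta i, hta1 i⟩, ⟨tb i, htb1 i⟩), fun q => code hW e a b (f i (sec (HF e) q)))
  have hΦ : Function.Injective Φ := by
    intro i j hij
    apply hinj
    have h3 := Prod.ext_iff.1 hij
    have h4 := Prod.ext_iff.1 h3.1
    have h5 : ta i = ta j := congrArg Subtype.val h4.1
    have h6 : tb i = tb j := congrArg Subtype.val h4.2
    refine eq_of_data hW e hR (hf i).1 (hf j).1 (hf2 i) (hf2 j) (hT0 _ (hta1 i)) (hT0 _ (htb1 i))
      (hta2 i) (htb2 i) ?_ ?_ (fun q => congrFun h3.2 q)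
    · rw [h5]; exact hta2 j
    · rw [h6]; exact htb2 j
  have h7 := Fintype.card_le_of_injective Φ hΦ
  rw [Fintype.card_fin, Fintype.card_prod, Fintype.card_prod, Fintype.card_coe, Fintype.card_fun,
    Fintype.card_prod, Fintype.card_bool, card_coset e] at h7
  refine h7.trans ?_
  rw [pow_two]
  exact Nat.mul_le_mul (Nat.mul_le_mul hTc hTc) (le_of_eq (by norm_num))

end Pool.Agent.L5helper6.SL
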