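import Pool.Agent.L5helper6.SL.Val
import Pool.Agent.TH841.NF.ShaN

/-!
# The locally trivial cocycles of order two over a field with full 2-torsion: square roots
-/

set_option autoImplicit false
set_option linter.all false

open scoped Classical

namespace Pool.Agent.L5helper6.SL

open NumberField IsDedekindDomain WithZero WeierstrassCurve WeierstrassCurve.Affine
open Pool.Agent.TH344.SH
open Pool.Agent.W309.TD (exists_root two_act)

variable {F : Type} [Field F] [NumberField F]

/-- finitely many square roots describe all the signs -/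
theorem sign_classes (F : Type) [Field F] [NumberField F] : ∃ A : ℕ,
    ∀ S : Set (HeightOneSpectrum (𝓞 F)), S.Finite →
    ∃ T : Finset (AlgebraicClosure F), T.card ≤ A * 2 ^ S.ncard ∧ (∀ t ∈ T, t ≠ 0) ∧
      ∀ (W : WeierstrassCurve F) (a b c : F), IsR W.toAffine a b c →
      (∀ w : HeightOneSpectrum (𝓞 F), w ∉ S → w.valuation F (a - b) = 1 ∧
        w.valuation F (a - c) = 1) →
      ∀ f : (AlgebraicClosure F ≃ₐ[F] AlgebraicClosure F) →
          Pool.Agent.W309.TD.Pt W (AlgebraicClosure F),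
        Pool.Agent.TH841.SH.D.IsCoc W f →
        (∀ w : HeightOneSpectrum (𝓞 F), Pool.Agent.TH841.SH.D.LocTriv W (w.adicCompletion F) f) →
        (∀ σ, f σ + f σ = 0) →
        ∃ t ∈ T, ∀ σ : AlgebraicClosure F ≃ₐ[F] AlgebraicClosure F,
          σ t = sg (algebraMap F (AlgebraicClosure F) a) (f σ) * t := by
  obtain ⟨A, hA⟩ := Pool.Agent.Y155.QT14.sel_finite' F
  refine ⟨A, fun S hS => ?_⟩
  obtain ⟨T0, hTc, hT0, hT⟩ := hA S hS
  have hsq : ∀ u : F, ∃ r : AlgebraicClosure F, r ^ 2 = algebraMap F _ u := fun u => by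
    exact IsAlgClosed.exists_pow_nat_eq _ (by norm_num)
  choose r hr using hsq
  refine ⟨T0.image r, Finset.card_image_le.trans hTc, ?_, ?_⟩
  · intro t ht
    obtain ⟨u, hu, rfl⟩ := Finset.mem_image.1 ht
    intro h0
    have := hr u
    rw [h0, zero_pow two_ne_zero] at this
    exact hT0 u hu ((map_eq_zero _).1 this.symm)
  intro W a b c hR hSv f hf hfl hf2
  have hRΩ := isR_base hR (AlgebraicClosure F)
  have hGal : IsGalois F (AlgebraicClosure F) := isGal F
  have hcoc : ∀ σ τ, f (σ * τ) = f σ +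
      Pool.Agent.W309.TD.act W (σ : AlgebraicClosure F ≃ₐ[F] AlgebraicClosure F).toAlgHom (f τ) :=
    hf.2
  have hadd : ∀ σ τ, f (σ * τ) = f σ + f τ := fun σ τ => by
    rw [hcoc, act_tor W hRΩ _ (hf2 τ)]
  have hlc : IsLocallyConstant f := hf.1
  obtain ⟨s, d, hs0, hsd, hσ⟩ := exists_root (K := F) hRΩ.two
    (fun σ => sg (algebraMap F (AlgebraicClosure F) a) (f σ)) (fun σ => sg_sq _ _)
    (fun σ τ => by
      show sg _ (f (σ * τ)) = sg _ (f σ) * sg _ (f τ)
      rw [hadd, sg_add hRΩ (hf2 σ) (hf2 τ)]) (hlc.comp (sg (algebraMap F (AlgebraicClosure F) a)))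
  have hd0 : d ≠ 0 := by
    rintro rfl
    rw [map_zero] at hsd
    exact hs0 (pow_eq_zero_iff two_ne_zero |>.1 hsd)
  obtain ⟨u, hu, β, hβ, hdu⟩ := hT (Units.mk0 d hd0) (fun w hw => by
    apply even_of_sq
    obtain ⟨hab, hac⟩ := hSv w hw
    have hch : CharZero (w.adicCompletion F) := algebraRat.charZero _
    exact locR_val w hab hac (loc hR hf2 hs0 hsd hσ (w.adicCompletion F) (fun ι => by
      obtain ⟨P, hP⟩ := hfl w ι
      exact ⟨P, fun τ σ h => hP τ σ h⟩)))
  refine ⟨r u, Finset.mem_image_of_mem _ hu, fun σ => ?_⟩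
  have h1 : s ^ 2 = (algebraMap F _ β * r u) ^ 2 := by
    rw [hsd, mul_pow, hr, ← map_pow, ← map_mul]
    congr 1
    rw [mul_comm]
    exact hdu
  have hβ' : algebraMap F (AlgebraicClosure F) β ≠ 0 := (map_ne_zero _).2 hβ
  have h2 := hσ σ
  rcases sq_eq_sq_iff_eq_or_eq_neg.1 h1 with h3 | h3
  · rw [h3, map_mul, σ.commutes] at h2
    apply mul_left_cancel₀ hβ'
    rw [h2]; ring
  · rw [h3, map_neg, map_mul, σ.commutes] at h2
    apply mul_left_cancel₀ hβ'
    linear_combination -h2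

end Pool.Agent.L5helper6.SL
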