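import Pool.Agent.Y667.BKP.Main

/-!
# The lattice in the Bloch–Kato Selmer group `H¹_f(F, V_2 W)` and its rank
-/

set_option autoImplicit false
set_option linter.all false

open scoped Classical

namespace Pool.Agent.L5helper6.SL

open WeierstrassCurve
open Pool.Agent.TH841.SH.D (Pt act Gal Coch IsCoc IsCob)
open Pool.Agent.Y667.BKP (PSeq IsV H1f selCocV cobV IsSelV IsCobV LocKum Coch2 coord_sha coord_tor
  exists_rat)

variable {F : Type} [Field F] [NumberField F]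

/-- the lattice `L` of `H¹_f(F, V_2(W))`: the classes of the cocycles with values in the Tate module
`T_2(W)` -/
noncomputable def lat (W : WeierstrassCurve F) : AddSubgroup (H1f 2 W) where
  carrier := {x | ∃ c : selCocV 2 W, QuotientAddGroup.mk c = x ∧ ∀ σ : Gal F, c.1 σ 0 = 0}
  zero_mem' := ⟨0, rfl, fun _ => rfl⟩
  add_mem' := by
    rintro x y ⟨c, rfl, hc⟩ ⟨d, rfl, hd⟩
    refine ⟨c + d, rfl, fun σ => ?_⟩
    change c.1 σ 0 + d.1 σ 0 = 0
    rw [hc, hd, add_zero]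
  neg_mem' := by
    rintro x ⟨c, rfl, hc⟩
    refine ⟨-c, rfl, fun σ => ?_⟩
    change -c.1 σ 0 = 0
    rw [hc, neg_zero]

/-- the subgroup `2 L` of `L` -/
noncomputable def lat2 (W : WeierstrassCurve F) : AddSubgroup (lat W) :=
  (nsmulAddMonoidHom (α := lat W) 2).range

/-- the dimension of `H¹_f(F, V_2(W))` over `ℚ_2`: the logarithm to the base `2` of the index of
`2 L` in `L` -/
noncomputable def selDim (W : WeierstrassCurve F) : ℕ :=
  Nat.log 2 (Nat.card (lat W ⧸ lat2 W))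

/-- two integral classes with the same first coordinate are congruent modulo `2 L` -/
lemma shift {W : WeierstrassCurve F} (c d : selCocV 2 W) (hc : ∀ σ : Gal F, c.1 σ 0 = 0)
    (hd : ∀ σ : Gal F, d.1 σ 0 = 0) (h : ∀ σ : Gal F, c.1 σ 1 = d.1 σ 1) :
    ∃ y : selCocV 2 W, (∀ σ : Gal F, y.1 σ 0 = 0) ∧ c = d + (2 : ℕ) • y := by
  have hcd : IsSelV 2 W (c.1 - d.1) := (c - d).2
  have hy : IsSelV 2 W (fun σ m => (c.1 - d.1) σ (1 + m)) := by
    obtain ⟨⟨a1, a2, a3⟩, a4, a5⟩ := hcd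
    have hl : ∀ (M : Type) [Field M] [Algebra F M],
        LocKum 2 W M (c.1 - d.1) → LocKum 2 W M (fun σ m => (c.1 - d.1) σ (1 + m)) := by
      intro M _ _ h ι
      obtain ⟨Q', h1, h2⟩ := h ι
      exact ⟨fun m => Q' (1 + m), fun m => h1 (1 + m), fun τ σ hτ m => h2 τ σ hτ (1 + m)⟩
    exact ⟨⟨fun m => a1 (1 + m), fun σ m => a2 σ (1 + m), fun σ τ m => a3 σ τ (1 + m)⟩,
      fun v => hl _ (a4 v), fun v => hl _ (a5 v)⟩
  refine ⟨⟨_, hy⟩, fun σ => ?_, ?_⟩
  · show c.1 σ 1 - d.1 σ 1 = 0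
    rw [h, sub_self]
  · apply Subtype.ext
    funext σ m
    show c.1 σ m = d.1 σ m + (2 : ℕ) • ((c.1 - d.1) σ (1 + m))
    have e2 := (hcd.1.2.1 σ m).1
    rw [add_comm 1 m, e2]
    show c.1 σ m = d.1 σ m + (c.1 σ m - d.1 σ m)
    abel

/-- **The bound for the index of `2 L` in `L`.** -/
theorem index_le {W : WeierstrassCurve F} {M : ℕ}
    (h : ∀ (N : ℕ) (f : Fin N → Coch W), Function.Injective f →
      (∀ i, Pool.Agent.TH841.NF.D.IsShaCoc W (f i)) → (∀ i σ, f i σ + f i σ = 0) → N ≤ M) :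
    Finite (lat W ⧸ lat2 W) ∧ Nat.card (lat W ⧸ lat2 W) ≤ M := by
  have key : ∀ (N : ℕ) (q : Fin N → lat W ⧸ lat2 W), Function.Injective q → N ≤ M := by
    intro N q hq
    choose x hx using fun i => QuotientAddGroup.mk_surjective (q i)
    choose c hc1 hc2 using fun i => (x i).2
    refine h N (fun i σ => (c i).1 σ 1) ?_ (fun i => coord_sha (c i).2 1) ?_
    · intro i j hij
      apply hq
      obtain ⟨y, hy1, hy2⟩ := shift (c i) (c j) (hc2 i) (hc2 j) (fun σ => congrFun hij σ)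
      rw [← hx, ← hx, QuotientAddGroup.eq]
      have hyl : (QuotientAddGroup.mk y : H1f 2 W) ∈ lat W := ⟨y, rfl, hy1⟩
      refine ⟨-(⟨_, hyl⟩ : lat W), ?_⟩
      apply Subtype.ext
      have e1 : ((x i : H1f 2 W)) = (x j : H1f 2 W) + 2 • (QuotientAddGroup.mk y : H1f 2 W) := by
        rw [← hc1 i, ← hc1 j, hy2]
        rfl
      show 2 • (-(QuotientAddGroup.mk y : H1f 2 W)) = -(x i : H1f 2 W) + (x j : H1f 2 W)
      rw [e1]
      abel
    · intro i σ
      have h2 := ((show IsSelV 2 W (c i).1 from (c i).2).1.2.1 σ 0).1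
      rw [zero_add, two_nsmul] at h2
      show (c i).1 σ 1 + (c i).1 σ 1 = 0
      rw [h2]
      exact hc2 i σ
  have hfin : Finite (lat W ⧸ lat2 W) := by
    by_contra hinf
    rw [not_finite_iff_infinite] at hinf
    have h1 := key (M + 1) (fun i => Infinite.natEmbedding _ (i : ℕ))
      (fun i j hij => Fin.ext ((Infinite.natEmbedding _).injective hij))
    omega
  refine ⟨hfin, key _ (Finite.equivFin _).symm (Finite.equivFin _).symm.injective⟩

/-- the index is a power of `2` -/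
theorem index_eq {W : WeierstrassCurve F} (h : Finite (lat W ⧸ lat2 W)) :
    Nat.card (lat W ⧸ lat2 W) = 2 ^ selDim W := by
  have h2 : ∀ x : lat W ⧸ lat2 W, 2 • x = 0 := by
    intro x
    obtain ⟨y, rfl⟩ := QuotientAddGroup.mk_surjective x
    rw [← QuotientAddGroup.mk_nsmul]
    refine (QuotientAddGroup.eq_zero_iff _).2 ⟨y, rfl⟩
  letI : Module (ZMod 2) (lat W ⧸ lat2 W) := AddCommGroup.zmodModule h2
  have h3 : Nat.card (lat W ⧸ lat2 W) = 2 ^ Module.finrank (ZMod 2) (lat W ⧸ lat2 W) := by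
    have := Fintype.ofFinite (lat W ⧸ lat2 W)
    rw [Nat.card_eq_fintype_card, Module.card_eq_pow_finrank (K := ZMod 2), ZMod.card]
  unfold selDim
  rw [h3, Nat.log_pow (by norm_num)]

/-- `L` spans -/
theorem lat_span {W : WeierstrassCurve F} (x : H1f 2 W) : ∃ m : ℕ, 2 ^ m • x ∈ lat W := by
  obtain ⟨⟨c, hc⟩, rfl⟩ := QuotientAddGroup.mk_surjective x
  obtain ⟨m, hm⟩ := coord_tor (show IsSelV 2 W c from hc).1 0
  exact ⟨m, (2 ^ m : ℕ) • ⟨c, hc⟩, QuotientAddGroup.mk_nsmul _ _ _, fun σ => hm σ⟩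

/-- there is no torsion of order two -/
theorem tf {W : WeierstrassCurve F} (x : H1f 2 W) (hx : 2 • x = 0) : x = 0 := by
  obtain ⟨c, rfl⟩ := QuotientAddGroup.mk_surjective x
  have h1 : (QuotientAddGroup.mk ((2 : ℕ) • c) : H1f 2 W) = 0 := by
    rw [QuotientAddGroup.mk_nsmul]
    exact hx
  have h2 := (QuotientAddGroup.eq_zero_iff _).1 h1
  rw [AddSubgroup.mem_addSubgroupOf] at h2
  obtain ⟨v, hv, hv2⟩ := h2
  refine (QuotientAddGroup.eq_zero_iff _).2 ?_
  rw [AddSubgroup.mem_addSubgroupOf]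
  refine ⟨fun n => v (n + 1), fun n => hv (n + 1), fun σ n => ?_⟩
  have h3 := (((show IsSelV 2 W c.1 from c.2)).1.2.1 σ n).1
  have h4 : (2 : ℕ) • c.1 σ (n + 1) = act W σ.toAlgHom (v (n + 1)) - v (n + 1) := hv2 σ (n + 1)
  rw [← h3, h4]

/-- no invariants in the rational Tate module -/
theorem noinv {W : WeierstrassCurve F} (hfg : AddGroup.FG W.toAffine.Point) (x : PSeq W)
    (hx : IsV 2 W x) (hfix : ∀ (σ : Gal F) (n : ℕ), act W σ.toAlgHom (x n) = x n) :
    ∀ n, x n = 0 := by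
  obtain ⟨j, hj1, -, hj⟩ := exists_rat W
  choose q hq using fun n => hj (x n) (fun σ => hfix σ n)
  have hm : Module.Finite ℤ W.toAffine.Point := Module.Finite.iff_addGroup_fg.2 hfg
  have hN : IsNoetherian ℤ W.toAffine.Point := isNoetherian_of_isNoetherianRing_of_finite ℤ _
  have hT : Finite (Submodule.torsion ℤ W.toAffine.Point) :=
    Module.finite_of_fg_torsion _ (Submodule.torsion_isTorsion)
  have hqt : ∀ n, ∃ m : ℕ, (2 ^ m : ℕ) • q n = 0 := by
    intro n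
    obtain ⟨m, hm⟩ := (hx n).2
    refine ⟨m, hj1 ?_⟩
    rw [map_nsmul, hq, hm, map_zero]
  have hqT : ∀ n, q n ∈ Submodule.torsion ℤ W.toAffine.Point := by
    intro n
    obtain ⟨m, hm⟩ := hqt n
    rw [Submodule.mem_torsion_iff]
    refine ⟨⟨(2 ^ m : ℕ), mem_nonZeroDivisors_of_ne_zero (by positivity)⟩, ?_⟩
    change ((2 ^ m : ℕ) : ℤ) • q n = 0
    rw [natCast_zsmul]
    exact hm
  have hr : (Set.range q).Finite := by
    have h1 : (Set.range fun n => (⟨q n, hqT n⟩ : Submodule.torsion ℤ W.toAffine.Point)).Finite :=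
      Set.toFinite _
    refine (h1.image Subtype.val).subset ?_
    rintro _ ⟨n, rfl⟩
    exact ⟨⟨q n, hqT n⟩, ⟨n, rfl⟩, rfl⟩
  have hex : ∀ y ∈ Set.range q, ∃ k : ℕ, (2 ^ k : ℕ) • y = 0 := by
    rintro y ⟨n, rfl⟩
    exact hqt n
  choose! k hk using hex
  obtain ⟨K, hK⟩ := (hr.image k).bddAbove
  have hpow : ∀ n i : ℕ, (2 ^ i : ℕ) • x (n + i) = x n := by
    intro n i
    induction i with
    | zero => simp
    | succ i ih => rw [pow_succ, mul_smul, ← add_assoc, (hx (n + i)).1, ih]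
  intro n
  have h1 := hk _ (Set.mem_range_self (n + K))
  have h2 : k (q (n + K)) ≤ K := hK ⟨_, Set.mem_range_self (n + K), rfl⟩
  have h3 : (2 ^ k (q (n + K)) : ℕ) • x (n + K) = 0 := by
    rw [← hq, ← map_nsmul, h1, map_zero]
  rw [← hpow n K, ← Nat.sub_add_cancel h2, pow_add, mul_smul, Nat.sub_add_cancel h2, h3, smul_zero]

end Pool.Agent.L5helper6.SL
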