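import Pool.Agent.L5helper6.SL.Cnt
import Pool.Agent.Y155.QT14

/-!
# Locally trivial cocycles of order two on the quadratic twists of an elliptic curve over `ℚ`
-/

set_option autoImplicit false
set_option linter.all false

attribute [-instance] DivisionRing.toRatAlgebra

open scoped Classical

namespace Pool.Agent.L5helper6.SL

open NumberField IsDedekindDomain WithZero WeierstrassCurve WeierstrassCurve.Affine Polynomial
open Pool.Agent.TH344.SH
open Pool.Agent.TH841.NF
open Pool.Agent.TH841.SH.D (Pt act Gal Coch IsCoc IsCob LocTriv cob)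
open Pool.Agent.Y155.QT14 (EC badS badS_smul badS_finite ncard_val_ne_one_le finrank_splitting_le)
open Pool.Agent.H437R2.Man.MW (finite_val_ne_one)

/-- locally trivial cocycles of order two of the twists -/
theorem count_tw (a b : ℤ) (hab : 4 * a ^ 3 + 27 * b ^ 2 ≠ 0) : ∃ C : ℕ, ∀ d : ℤ, d ≠ 0 →
    ∀ (N : ℕ) (f : Fin N → Coch (EC (a * d ^ 2) (b * d ^ 3))), Function.Injective f →
      (∀ i, Pool.Agent.TH841.NF.D.IsShaCoc (EC (a * d ^ 2) (b * d ^ 3)) (f i)) →
      (∀ i σ, f i σ + f i σ = 0) → N ≤ 2 ^ (C + 12 * d.natAbs.primeFactors.card) := by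
  let P : Cubic ℚ := ⟨1, 0, (a : ℚ), (b : ℚ)⟩
  let K : Type := P.toPoly.SplittingField
  have : NumberField K :=
    { to_charZero := inferInstanceAs (CharZero P.toPoly.SplittingField)
      to_finiteDimensional := by
        have h := (inferInstance : FiniteDimensional ℚ P.toPoly.SplittingField)
        convert h }
  have ha : P.a ≠ 0 := one_ne_zero
  have hsp : Splits (P.toPoly.map (algebraMap ℚ K)) := SplittingField.splits P.toPoly
  obtain ⟨x, y, z, h3⟩ := (Cubic.splits_iff_roots_eq_three ha).1 hsp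
  have hdisc : P.discr ≠ 0 := by
    have h : P.discr = -(4 * (a : ℚ) ^ 3 + 27 * (b : ℚ) ^ 2) := by
      simp only [Cubic.discr, P]
      ring
    rw [h, neg_ne_zero]
    exact_mod_cast hab
  obtain ⟨hxy, hxz, hyz⟩ := (Cubic.discr_ne_zero_iff_roots_ne ha h3).1 hdisc
  have hb := Cubic.b_eq_three_roots ha h3
  have hc := Cubic.c_eq_three_roots ha h3
  have hd := Cubic.d_eq_three_roots ha h3
  simp only [P, map_one, map_zero, one_mul] at hb hc hd
  have hdeg : Module.finrank ℚ K ≤ 6 := by
    have hnd : (P.toPoly.map (algebraMap ℚ K)).roots.Nodup := by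
      have h4 : (P.toPoly.map (algebraMap ℚ K)).roots = {x, y, z} := by
        rw [← Cubic.map_toPoly]
        exact h3
      rw [h4]
      simp [hxy, hxz, hyz]
    have h5 := finrank_splitting_le P.toPoly
      ((Polynomial.nodup_aroots_iff_of_splits (K := K) (Cubic.ne_zero_of_a_ne_zero ha) hsp).mp hnd)
      (Cubic.natDegree_of_a_ne_zero ha).le
    convert h5
  obtain ⟨A, hA⟩ := count K
  set n0 : ℕ := (badS x y z).ncard with hn0
  refine ⟨A ^ 2 + 2 * n0 + 12, fun d hd0 N f hf1 hf2 hf3 => ?_⟩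
  have hdK : (d : K) ≠ 0 := by exact_mod_cast hd0
  have q12 : (d : K) * x ≠ (d : K) * y := fun h => hxy (mul_left_cancel₀ hdK h)
  have q13 : (d : K) * x ≠ (d : K) * z := fun h => hxz (mul_left_cancel₀ hdK h)
  have q23 : (d : K) * y ≠ (d : K) * z := fun h => hyz (mul_left_cancel₀ hdK h)
  have hbad : (badS ((d : K) * x) ((d : K) * y) ((d : K) * z)).ncard ≤
      n0 + 6 * d.natAbs.primeFactors.card := by
    have hf1 : (badS x y z).Finite := badS_finite hxy hxz hyz
    have hf2 := finite_val_ne_one (d : K) hdK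
    have hcd := ncard_val_ne_one_le K d hd0
    have hdeg' : @Module.finrank ℚ K _ _ (@Algebra.toModule ℚ K _ _ DivisionRing.toRatAlgebra) ≤ 6 := by
      convert hdeg
    calc _ ≤ (badS x y z ∪ {v | v.valuation K (d : K) ≠ 1}).ncard :=
          Set.ncard_le_ncard (badS_smul _ _ _ _) (hf1.union hf2)
      _ ≤ (badS x y z).ncard +
          {v : HeightOneSpectrum (𝓞 K) | v.valuation K (d : K) ≠ 1}.ncard :=
          Set.ncard_union_le _ _
      _ ≤ n0 + 6 * d.natAbs.primeFactors.card := by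
          apply Nat.add_le_add_left
          exact hcd.trans (Nat.mul_le_mul_right _ hdeg')
  let E : WeierstrassCurve ℚ := EC (a * d ^ 2) (b * d ^ 3)
  let W : WeierstrassCurve K := E.map (algebraMap ℚ K)
  have hSc : Sc (algebraMap ℚ K) 1 E W :=
    ⟨one_ne_zero, by rw [mul_one]; rfl, by rw [one_pow, mul_one]; rfl,
      by rw [one_pow, mul_one]; rfl, by rw [one_pow, mul_one]; rfl, by rw [one_pow, mul_one]; rfl⟩
  have hIs : IsR W.toAffine ((d : K) * x) ((d : K) * y) ((d : K) * z) := by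
    refine ⟨?_, ?_, ?_, ?_, ?_, two_ne_zero, q12, q13, q23⟩
    · change algebraMap ℚ K 0 = 0
      rw [map_zero]
    · change algebraMap ℚ K 0 = _
      rw [map_zero]
      linear_combination (d : K) * hb
    · change algebraMap ℚ K 0 = 0
      rw [map_zero]
    · change algebraMap ℚ K ((a * d ^ 2 : ℤ) : ℚ) = _
      rw [Int.cast_mul, Int.cast_pow, map_mul, map_pow, map_intCast (algebraMap ℚ K) d, hc]
      ring
    · change algebraMap ℚ K ((b * d ^ 3 : ℤ) : ℚ) = _
      rw [Int.cast_mul, Int.cast_pow, map_mul, map_pow, map_intCast (algebraMap ℚ K) d, hd]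
      ring
  have hfin : (badS ((d : K) * x) ((d : K) * y) ((d : K) * z)).Finite := badS_finite q12 q13 q23
  have h1 := hA (badS ((d : K) * x) ((d : K) * y) ((d : K) * z)) hfin E W hSc _ _ _ hIs
    (fun w hw => by
      simp only [badS, Set.mem_union, not_or, Set.mem_ofPred_eq, not_not] at hw
      exact ⟨hw.1.1, hw.1.2, hw.2⟩) N f hf1 hf2 hf3
  set m : ℕ := (badS ((d : K) * x) ((d : K) * y) ((d : K) * z)).ncard with hm
  calc N ≤ (A * 2 ^ m) ^ 2 * 4 ^ Module.finrank ℚ K := h1
    _ ≤ (2 ^ (A ^ 2) * 2 ^ (2 * m)) * 2 ^ 12 := by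
        apply Nat.mul_le_mul
        · rw [mul_pow, ← pow_mul, mul_comm m 2]
          exact Nat.mul_le_mul_right _ Nat.lt_two_pow_self.le
        · calc 4 ^ Module.finrank ℚ K ≤ 4 ^ 6 := Nat.pow_le_pow_right (by norm_num) hdeg
            _ = 2 ^ 12 := by norm_num
    _ = 2 ^ (A ^ 2 + 2 * m + 12) := by rw [← pow_add, ← pow_add]
    _ ≤ 2 ^ (A ^ 2 + 2 * n0 + 12 + 12 * d.natAbs.primeFactors.card) := by
        apply Nat.pow_le_pow_right (by norm_num)
        omega

end Pool.Agent.L5helper6.SL
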