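import Pool.Agent.TH344.SH.Gal
import Pool.Agent.W309.TD.Des

/-!
# Local values of the descent map for curves with full rational 2-torsion
-/

set_option autoImplicit false
set_option linter.all false

open WeierstrassCurve WeierstrassCurve.Affine
open scoped Classical
open Pool.Agent.W309.TD (Pt act act_zero act_some act_inj act_act two_act rs incl rs_apply
  rs_act_incl exists_root compare au au_apply exists_restrict fixed_point)

namespace Pool.Agent.L5helper6.SL

open Pool.Agent.TH344.SH

section

variable {F : Type} [Field F] {W : Affine F} {a b c : F}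

/-- the product of the signs -/
theorem sg_prod (h : IsR W a b c) {T : W.Point} (hT : T + T = 0) : sg a T = sg b T * sg c T := by
  rcases T with _ | ⟨x, y, hxy⟩
  · show (1 : F) = 1 * 1
    ring
  · obtain rfl : y = 0 := (add_self_eq_zero_iff h hxy).1 hT
    rcases root_of_tor h hxy rfl with rfl | rfl | rfl
    · simp only [sg, if_true, if_neg h.nab, if_neg h.nac]; ring
    · simp only [sg, if_true, if_neg h.nab.symm, if_neg h.nbc]; ring
    · simp only [sg, if_true, if_neg h.nac.symm, if_neg h.nbc.symm]; ring

end

lemma isR_base {F : Type} [Field F] {W : WeierstrassCurve F} {a b c : F}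
    (h : IsR W.toAffine a b c) (L : Type) [Field L] [Algebra F L] :
    IsR (W.baseChange L).toAffine (algebraMap F L a) (algebraMap F L b) (algebraMap F L c) := by
  refine ⟨?_, ?_, ?_, ?_, ?_, ?_, ?_, ?_, ?_⟩
  · show algebraMap F L W.a₁ = 0
    rw [h.a1, map_zero]
  · show algebraMap F L W.a₂ = _
    rw [h.a2, map_neg, map_add, map_add]
  · show algebraMap F L W.a₃ = 0
    rw [h.a3, map_zero]
  · show algebraMap F L W.a₄ = _
    rw [h.a4, map_add, map_add, map_mul, map_mul, map_mul]
  · show algebraMap F L W.a₆ = _
    rw [h.a6, map_neg, map_mul, map_mul]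
  · have := (map_ne_zero (algebraMap F L)).2 h.two
    rwa [map_ofNat] at this
  · exact fun h' => h.nab ((algebraMap F L).injective h')
  · exact fun h' => h.nac ((algebraMap F L).injective h')
  · exact fun h' => h.nbc ((algebraMap F L).injective h')

/-- `d` is modulo squares the value of `x - a` at a point of `y² = (x - a) (x - b) (x - c)` -/
def LocR (L : Type) [Field L] (a b c d : L) : Prop :=
  IsSquare d ∨ IsSquare ((a - b) * (a - c) * d) ∨
    ∃ X Y : L, X ≠ a ∧ Y ^ 2 = (X - a) * (X - b) * (X - c) ∧ IsSquare ((X - a) * d)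

section

variable {K : Type} [Field K] [CharZero K] {W : WeierstrassCurve K} {a b c : K}

theorem isGal (K : Type) [Field K] [CharZero K] : IsGalois K (AlgebraicClosure K) := by
  infer_instance

/-- the local step -/
theorem loc (h : IsR W.toAffine a b c)
    {f : (AlgebraicClosure K ≃ₐ[K] AlgebraicClosure K) → Pt W (AlgebraicClosure K)}
    (hf2 : ∀ σ, f σ + f σ = 0)
    {t : AlgebraicClosure K} {d : K} (ht : t ≠ 0) (hd : t ^ 2 = algebraMap K _ d)
    (hσ : ∀ σ : AlgebraicClosure K ≃ₐ[K] AlgebraicClosure K,
      σ t = sg (algebraMap K (AlgebraicClosure K) a) (f σ) * t)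
    (L : Type) [Field L] [CharZero L] [Algebra K L]
    (hl : ∀ ι : AlgebraicClosure K →ₐ[K] AlgebraicClosure L, ∃ P : Pt W (AlgebraicClosure L),
      ∀ (τ : AlgebraicClosure L ≃ₐ[L] AlgebraicClosure L)
        (σ : AlgebraicClosure K ≃ₐ[K] AlgebraicClosure K), (∀ x, τ (ι x) = ι (σ x)) →
          act W ι (f σ) = act W (rs K τ) P - P) :
    LocR L (algebraMap K L a) (algebraMap K L b) (algebraMap K L c) (algebraMap K L d) := by
  have hG : IsGalois L (AlgebraicClosure L) := isGal L
  have hGQ : IsGalois K (AlgebraicClosure K) := isGal K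
  obtain ⟨ι⟩ : Nonempty (AlgebraicClosure K →ₐ[K] AlgebraicClosure L) := ⟨IsAlgClosed.lift⟩
  obtain ⟨P, hP⟩ := hl ι
  choose res hres using exists_restrict (K := K) (Ω := AlgebraicClosure K) (F := L)
    (Ω' := AlgebraicClosure L) ι
  have hTK := isR_base h L
  have hR := isR_base h (AlgebraicClosure L)
  set T : (AlgebraicClosure L ≃ₐ[L] AlgebraicClosure L) → Pt W (AlgebraicClosure L) :=
    fun τ => act W ι (f (res τ)) with hT
  have hT2 : ∀ τ, T τ + T τ = 0 := fun τ => (two_act W ι _).2 (hf2 _)
  have hTP : ∀ τ, act W (rs K τ) P = P + T τ := by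
    intro τ
    have h1 : T τ = act W (rs K τ) P - P := hP τ (res τ) (fun x =>
      congrArg (fun φ : AlgebraicClosure K →ₐ[K] AlgebraicClosure L => φ x) (hres τ))
    rw [h1]; abel
  have hPP : ∀ τ : AlgebraicClosure L ≃ₐ[L] AlgebraicClosure L,
      act W (rs K τ) (P + P) = P + P := by
    intro τ
    rw [map_add, hTP, add_add_add_comm, hT2, add_zero]
  have inj := (algebraMap L (AlgebraicClosure L)).injective
  have tow : ∀ r : K, algebraMap L (AlgebraicClosure L) (algebraMap K L r) =
      algebraMap K (AlgebraicClosure L) r := fun r =>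
    (IsScalarTower.algebraMap_apply K L (AlgebraicClosure L) r).symm
  have l0 : ∀ τ : AlgebraicClosure L ≃ₐ[L] AlgebraicClosure L,
      τ (ι t) = sg (algebraMap K (AlgebraicClosure L) a) (T τ) * ι t := by
    intro τ
    have h1 := congrArg (fun φ : AlgebraicClosure K →ₐ[K] AlgebraicClosure L => φ t) (hres τ)
    have h2 : τ (ι t) = ι ((res τ) t) := h1
    have h3 := sg_act W ι (algebraMap K _ a) (f (res τ))
    rw [ι.commutes] at h3
    rw [h2, hσ, map_mul, ← h3]
  have w1 : (ι t) ^ 2 = algebraMap K (AlgebraicClosure L) d := by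
    rw [← map_pow, hd, ι.commutes]
  have hιt : ι t ≠ 0 := (map_ne_zero ι).2 ht
  by_cases hP0 : P + P = 0
  · -- the trivial class
    left
    have hone : ∀ τ : AlgebraicClosure L ≃ₐ[L] AlgebraicClosure L, τ (ι t) = 1 * ι t := by
      intro τ
      have h1 : T τ = 0 := by
        have h2 := hTP τ
        rw [act_tor W hR (rs K τ) hP0] at h2
        exact left_eq_add.1 h2
      rw [l0, h1, sg_zero]
    obtain ⟨k, hk, q⟩ := compare (K := L) hιt one_ne_zero (fun _ => 1) (fun _ => one_ne_zero) hone
      (fun τ => by rw [map_one, one_mul])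
    refine ⟨k, ?_⟩
    apply inj
    rw [tow, ← w1, q, mul_one, map_mul]
    ring
  · obtain ⟨X', Y', hQ', e1, e2, e3, e4, -⟩ := double hR hP0
    obtain ⟨Q, hQ⟩ := fixed_point (K := K) (F := L) W (P + P) hPP
    rcases Q with _ | ⟨X, Y, hXY⟩
    · exfalso
      apply hP0
      rw [← hQ]
      exact act_zero W _
    obtain ⟨hn, hh⟩ := act_some W (incl K L (AlgebraicClosure L)) hXY
    have hX : algebraMap L (AlgebraicClosure L) X = X' := by
      rw [← hQ, hh] at e1
      exact (Point.some.inj e1).1
    have hcurve : Y ^ 2 = (X - algebraMap K L a) * (X - algebraMap K L b) *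
        (X - algebraMap K L c) := hTK.nonsingular.1 hXY
    by_cases hXa : X = algebraMap K L a
    · right; left
      have hXa' : X' = algebraMap K (AlgebraicClosure L) a := by rw [← hX, hXa, tow]
      set r : AlgebraicClosure L := rt (algebraMap K _ b) (algebraMap K _ a) (algebraMap K _ c) P *
        rt (algebraMap K _ c) (algebraMap K _ a) (algebraMap K _ b) P with hr
      have hr2 : r ^ 2 = (algebraMap K (AlgebraicClosure L) a - algebraMap K _ b) *
          (algebraMap K (AlgebraicClosure L) a - algebraMap K _ c) := by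
        rw [hr, mul_pow, e3, e4, hXa']
      have hr0 : r ≠ 0 := by
        intro h0
        rw [h0] at hr2
        have h1 : (algebraMap K (AlgebraicClosure L) a - algebraMap K _ b) *
          (algebraMap K (AlgebraicClosure L) a - algebraMap K _ c) = 0 := by rw [← hr2]; ring
        rcases mul_eq_zero.1 h1 with h2 | h2
        · exact hR.nab (sub_eq_zero.1 h2)
        · exact hR.nac (sub_eq_zero.1 h2)
      have m0 : ∀ τ : AlgebraicClosure L ≃ₐ[L] AlgebraicClosure L,
          τ r = sg (algebraMap K (AlgebraicClosure L) a) (T τ) * r := by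
        intro τ
        have k1 := rt_act W (rs K τ) (algebraMap K (AlgebraicClosure L) b)
          (algebraMap K (AlgebraicClosure L) a) (algebraMap K (AlgebraicClosure L) c) P
        have k2 := rt_act W (rs K τ) (algebraMap K (AlgebraicClosure L) c)
          (algebraMap K (AlgebraicClosure L) a) (algebraMap K (AlgebraicClosure L) b) P
        rw [(rs K τ).commutes, (rs K τ).commutes, (rs K τ).commutes, hTP,
          translate hR.swap hP0 (hT2 τ), rs_apply] at k1
        rw [(rs K τ).commutes, (rs K τ).commutes, (rs K τ).commutes, hTP,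
          translate hR.rot hP0 (hT2 τ), rs_apply] at k2
        rw [hr, map_mul, ← k1, ← k2, sg_prod hR (hT2 τ)]
        ring
      obtain ⟨k, hk, q⟩ := compare (K := L) hιt hr0 _ (fun τ => sg_ne _ _) l0 m0
      refine ⟨k * ((algebraMap K L a - algebraMap K L b) * (algebraMap K L a - algebraMap K L c)), ?_⟩
      apply inj
      have w2 : algebraMap K (AlgebraicClosure L) d = algebraMap L (AlgebraicClosure L) k ^ 2 *
          ((algebraMap K (AlgebraicClosure L) a - algebraMap K _ b) *
          (algebraMap K (AlgebraicClosure L) a - algebraMap K _ c)) := by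
        rw [← w1, q, mul_pow, hr2]
      simp only [map_mul, map_sub, tow]
      rw [w2]
      ring
    · right; right
      refine ⟨X, Y, hXa, hcurve, ?_⟩
      have hr0 : rt (algebraMap K (AlgebraicClosure L) a) (algebraMap K _ b) (algebraMap K _ c) P ≠
          0 := by
        intro h0
        rw [h0] at e2
        apply hXa
        apply inj
        rw [hX, tow]
        have : X' - algebraMap K (AlgebraicClosure L) a = 0 := by rw [← e2]; ring
        exact sub_eq_zero.1 this
      have m0 : ∀ τ : AlgebraicClosure L ≃ₐ[L] AlgebraicClosure L,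
          τ (rt (algebraMap K (AlgebraicClosure L) a) (algebraMap K _ b) (algebraMap K _ c) P) =
          sg (algebraMap K (AlgebraicClosure L) a) (T τ) *
            rt (algebraMap K (AlgebraicClosure L) a) (algebraMap K _ b) (algebraMap K _ c) P := by
        intro τ
        have k1 := rt_act W (rs K τ) (algebraMap K (AlgebraicClosure L) a)
          (algebraMap K (AlgebraicClosure L) b) (algebraMap K (AlgebraicClosure L) c) P
        rw [(rs K τ).commutes, (rs K τ).commutes, (rs K τ).commutes, hTP,
          translate hR hP0 (hT2 τ), rs_apply] at k1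
        exact k1.symm
      obtain ⟨k, hk, q⟩ := compare (K := L) hιt hr0 _ (fun τ => sg_ne _ _) l0 m0
      refine ⟨k * (X - algebraMap K L a), ?_⟩
      apply inj
      have w2 : algebraMap K (AlgebraicClosure L) d = algebraMap L (AlgebraicClosure L) k ^ 2 *
          (X' - algebraMap K (AlgebraicClosure L) a) := by
        rw [← w1, q, mul_pow, e2]
      simp only [map_mul, map_sub, tow, hX]
      rw [w2]
      ring

end

end Pool.Agent.L5helper6.SL
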