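import Pool.Agent.L5helper6.SL.Loc
import Pool.Agent.Y698.Cp
import Pool.Agent.Y155.QT14a

/-!
# Valuations of the local values of the descent map
-/

set_option autoImplicit false

namespace Pool.Agent.L5helper6.SL

open NumberField IsDedekindDomain WithZero

/-- the valuation of `x - a` is a square at a good place -/
lemma sq_val {L : Type} [Field L] (v : Valuation L ℤᵐ⁰) {A B C Y : L} (hA : A ≠ 0)
    (h : Y ^ 2 = A * B * C) (hab : v (B - A) = 1) (hac : v (C - A) = 1) : IsSquare (v A) := by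
  have hb : B = A + (B - A) := by ring
  have hc : C = A + (C - A) := by ring
  have hv : v Y ^ 2 = v A * v B * v C := by rw [← map_pow, h, map_mul, map_mul]
  have hA0 : v A ≠ 0 := (Valuation.ne_zero_iff _).2 hA
  rcases lt_trichotomy (v A) 1 with h1 | h1 | h1
  · have h2 : v B = 1 := by
      rw [hb, Valuation.map_add_eq_of_lt_right _ (by rw [hab]; exact h1), hab]
    have h3 : v C = 1 := by
      rw [hc, Valuation.map_add_eq_of_lt_right _ (by rw [hac]; exact h1), hac]
    rw [h2, h3, mul_one, mul_one] at hv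
    rw [← hv]
    exact IsSquare.sq _
  · rw [h1]
    exact IsSquare.one
  · have h2 : v B = v A := by
      rw [hb, Valuation.map_add_eq_of_lt_left _ (by rw [hab]; exact h1)]
    have h3 : v C = v A := by
      rw [hc, Valuation.map_add_eq_of_lt_left _ (by rw [hac]; exact h1)]
    rw [h2, h3] at hv
    refine ⟨v Y * (v A)⁻¹, ?_⟩
    have h4 : v Y * (v A)⁻¹ * (v Y * (v A)⁻¹) = v Y ^ 2 * ((v A)⁻¹ * (v A)⁻¹) := by
      rw [pow_two]
      exact mul_mul_mul_comm _ _ _ _
    rw [h4, hv]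
    rw [mul_assoc, mul_assoc, mul_inv_cancel_left₀ hA0, mul_inv_cancel₀ hA0, mul_one]

variable {F : Type} [Field F] [NumberField F]

lemma locR_val (w : HeightOneSpectrum (𝓞 F)) {a b c d : F}
    (hab : w.valuation F (a - b) = 1) (hac : w.valuation F (a - c) = 1)
    (h : LocR (w.adicCompletion F) (algebraMap F _ a) (algebraMap F _ b) (algebraMap F _ c)
      (algebraMap F _ d)) : IsSquare (w.valuation F d) := by
  have e : ∀ x : F, (Valued.v : Valuation (w.adicCompletion F) ℤᵐ⁰)
      (algebraMap F (w.adicCompletion F) x) = w.valuation F x :=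
    Pool.Agent.Y698.valued_algebraMap w
  rcases h with ⟨z, hz⟩ | ⟨z, hz⟩ | ⟨X, Y, hX, hY, z, hz⟩
  · rw [← e, hz, map_mul]
    exact ⟨_, rfl⟩
  · have h1 := congrArg (Valued.v : Valuation (w.adicCompletion F) ℤᵐ⁰) hz
    rw [← map_sub, ← map_sub, map_mul, map_mul, e, e, e, hab, hac, one_mul, one_mul, map_mul] at h1
    rw [h1]
    exact ⟨_, rfl⟩
  · have hA : X - algebraMap F (w.adicCompletion F) a ≠ 0 := sub_ne_zero.2 hX
    obtain ⟨s, hs⟩ := sq_val (Valued.v : Valuation (w.adicCompletion F) ℤᵐ⁰) hA hY (by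
        rw [sub_sub_sub_cancel_left, ← map_sub, e, hab]) (by
        rw [sub_sub_sub_cancel_left, ← map_sub, e, hac])
    have hs0 : s ≠ 0 := by
      rintro rfl
      rw [mul_zero] at hs
      exact (Valuation.ne_zero_iff _).2 hA hs
    have h1 := congrArg (Valued.v : Valuation (w.adicCompletion F) ℤᵐ⁰) hz
    rw [map_mul, map_mul, e, hs] at h1
    refine ⟨s⁻¹ * (Valued.v : Valuation (w.adicCompletion F) ℤᵐ⁰) z, ?_⟩
    have h2 : s⁻¹ * (Valued.v : Valuation (w.adicCompletion F) ℤᵐ⁰) z *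
        (s⁻¹ * (Valued.v : Valuation (w.adicCompletion F) ℤᵐ⁰) z) =
        (s⁻¹ * s⁻¹) * ((Valued.v : Valuation (w.adicCompletion F) ℤᵐ⁰) z *
          (Valued.v : Valuation (w.adicCompletion F) ℤᵐ⁰) z) := mul_mul_mul_comm _ _ _ _
    rw [h2, ← h1, ← mul_assoc, mul_mul_mul_comm, inv_mul_cancel₀ hs0, one_mul, one_mul]

lemma even_of_sq (w : HeightOneSpectrum (𝓞 F)) {d : Fˣ} (h : IsSquare (w.valuation F (d : F))) :
    Even (Multiplicative.toAdd (w.valuationOfNeZero d)) := by
  obtain ⟨z, hz⟩ := h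
  have hz0 : z ≠ 0 := by
    rintro rfl
    rw [mul_zero] at hz
    exact (Valuation.ne_zero_iff _).2 d.ne_zero hz
  obtain ⟨u, rfl⟩ := WithZero.ne_zero_iff_exists.1 hz0
  have h1 : w.valuationOfNeZero d = u * u := by
    apply WithZero.coe_injective
    rw [HeightOneSpectrum.valuationOfNeZero_eq, hz, WithZero.coe_mul]
  rw [h1, toAdd_mul]
  exact ⟨_, rfl⟩

end Pool.Agent.L5helper6.SL
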